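import Pool.Agent.Q197.LK.Fail
import Pool.Agent.Q120.GM.Exists

/-!
# The least k with 2kp+1 in the set, for the sieved models of the primes

`Q` is the level: the random set `A` contains each `n` coprime to `Q` independently with probability
`min(1, (Q/φ(Q))/log n)`, and no other `n`. For `Q = 1` this is the model of Cramér; for even `Q` its elements are
odd, like the primes. Let `c = 2` if `Q` is even and `c = 1` if `Q` is odd, and let `k(p)` be the least `k ≥ 1` with
`2kp + 1 ∈ A`. Almost surely, in every model of every level,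

* every large `p ∈ A` (indeed every large `p` coprime to `Q`) has an admissible `k` (`1 ≤ k < 2(p+1)`, `p ∤ k`) with
  `2kp + 1 ∈ A`, and `k(p) ≤ (1 + ε) (log p)² / c`;
* the limit points of `k(p) / (log p)²` along `A` are exactly the numbers of `[0, 1/c]`;
* the number of `p ≤ x` in `A` with `k(p) > λ (log p)² / c` is `x^(1 - λ + o(1))`, for `0 < λ < 1`;

and the probability that some `p ≥ N` in `A` has no admissible `k` with `2kp + 1 ∈ A` is
`exp (-(c + o(1)) N / log N)`.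
-/

set_option autoImplicit false

namespace Pool.Agent.Results.MP_2f88e5_nt.LeastMultiplierLaw

open MeasureTheory Filter Pool.Agent.Q120.GM
open scoped Topology

/-- `k` is admissible for `p`. -/
def Admissible (p k : ℕ) : Prop := 1 ≤ k ∧ k < 2 * (p + 1) ∧ ¬ p ∣ k

/-- The constant `c`: `2` for even `Q`, and `1` for odd `Q`. -/
noncomputable def c (Q : ℕ) : ℝ := if Even Q then 2 else 1

/-- `k(p)`: the least `k ≥ 1` with `2kp + 1 ∈ S`. -/
noncomputable def least (S : Set ℕ) (p : ℕ) : ℕ := sInf {k | 1 ≤ k ∧ 2 * k * p + 1 ∈ S}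

/-- The elements `p ≤ x` of `S` with `k(p) > λ (log p)² / c`. -/
def late (S : Set ℕ) (Q : ℕ) (lam : ℝ) (x : ℕ) : Set ℕ :=
  {p | p ≤ x ∧ p ∈ S ∧ lam * Real.log p ^ 2 / c Q < least S p}

/-- The law of the least multiplier. -/
structure Law (S : Set ℕ) (Q : ℕ) : Prop where
  coprime : ∀ p ∈ S, p.Coprime Q
  admissible : ∀ᶠ p : ℕ in atTop, p.Coprime Q → ∃ k, Admissible p k ∧ 2 * k * p + 1 ∈ S
  upper : ∀ ε : ℝ, 0 < ε → ∀ᶠ p : ℕ in atTop, p.Coprime Q →
    1 ≤ least S p ∧ 2 * least S p * p + 1 ∈ S ∧ (least S p : ℝ) ≤ (1 + ε) * Real.log p ^ 2 / c Q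
  limit_points : ∀ y : ℝ, MapClusterPt y (atTop ⊓ 𝓟 S) (fun p : ℕ => (least S p : ℝ) / Real.log p ^ 2) ↔
    0 ≤ y ∧ y ≤ 1 / c Q
  counts : ∀ lam ε : ℝ, 0 < lam → lam < 1 → 0 < ε → ∀ᶠ x : ℕ in atTop,
    (x : ℝ) ^ (1 - lam - ε) ≤ ((late S Q lam x).ncard : ℝ) ∧ ((late S Q lam x).ncard : ℝ) ≤ (x : ℝ) ^ (1 - lam + ε)

/-- The event that some `p ≥ N` in the set has no admissible `k` with `2kp + 1` in the set. -/
def fails {Ω : Type} (A : Ω → Set ℕ) (N : ℕ) : Set Ω :=
  {ω | ∃ p : ℕ, N ≤ p ∧ p ∈ A ω ∧ ∀ k, Admissible p k → 2 * k * p + 1 ∉ A ω}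

/-- **The least multiplier in the sieved models.** The models exist, and in every model of level `Q ≥ 1`: almost surely
the law of the least multiplier holds, and the probability that some `p ≥ N` in `A` has no admissible `k` with
`2kp + 1 ∈ A` is `exp (-(c + o(1)) N / log N)`. -/
theorem result : (∀ Q : ℕ, IsModel (prodMeasure (level Q)) (level Q) (trueSet (ι := ℕ))) ∧
    ∀ (Ω : Type) (_ : MeasurableSpace Ω) (μ : Measure Ω) (_ : IsProbabilityMeasure μ) (A : Ω → Set ℕ) (Q : ℕ),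
      1 ≤ Q → IsModel μ (level Q) A →
      (∀ᵐ ω ∂μ, Law (A ω) Q) ∧
      Tendsto (fun N : ℕ => Real.log (μ.real (fails A N)) / (N / Real.log N)) atTop (𝓝 (-c Q)) := by
  refine ⟨fun Q => isModel (level Q) (level_nonneg Q) (level_le_one Q), ?_⟩
  intro Ω _ μ _ A Q hQ hA
  constructor
  · filter_upwards [Pool.Agent.Q197.LK.ae_facts hA hQ] with ω F
    have hle : ∀ p : ℕ, least (A ω) p = Pool.Agent.Q197.LK.kk (A ω) p := fun _ => rfl
    have hup : ∀ ε : ℝ, 0 < ε → ∀ᶠ p : ℕ in atTop, p.Coprime Q →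
        1 ≤ least (A ω) p ∧ 2 * least (A ω) p * p + 1 ∈ A ω ∧
          (least (A ω) p : ℝ) ≤ (1 + ε) * Real.log p ^ 2 / c Q := fun ε hε => Pool.Agent.Q197.LK.kk_le F hε
    refine ⟨F.cop, ?_, hup, fun y => Pool.Agent.Q197.LK.cluster F y, fun lam ε h0 h1 hε => ?_⟩
    · have h1 : ∀ᶠ p : ℕ in atTop, 2 * Real.log (p : ℝ) ^ 2 < p := by
        have h2 : Tendsto (fun x : ℝ => Real.log x ^ 2 / x) atTop (𝓝 0) := by
          have := Real.tendsto_pow_log_div_mul_add_atTop 1 0 2 one_ne_zero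
          simpa using this
        have h3 := (h2.comp tendsto_natCast_atTop_atTop).eventually (gt_mem_nhds (show (0 : ℝ) < 1 / 2 by norm_num))
        filter_upwards [h3, eventually_ge_atTop 1] with p hp hp1
        have hp0 : (0 : ℝ) < p := by exact_mod_cast hp1
        simp only [Function.comp_apply] at hp
        rw [div_lt_iff₀ hp0] at hp
        linarith
      filter_upwards [hup 1 one_pos, h1] with p hp hl hc
      obtain ⟨g1, g2, g3⟩ := hp hc
      have hc1 : (1 : ℝ) ≤ c Q := Pool.Agent.Q197.LK.one_le_cQ Q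
      have g4 : (least (A ω) p : ℝ) < p := by
        refine lt_of_le_of_lt g3 (lt_of_le_of_lt ?_ hl)
        rw [div_le_iff₀ (by linarith)]
        nlinarith [sq_nonneg (Real.log (p : ℝ))]
      have g5 : least (A ω) p < p := by exact_mod_cast g4
      exact ⟨least (A ω) p, ⟨g1, by omega, fun hd => absurd (Nat.le_of_dvd (by omega) hd) (by omega)⟩, g2⟩
    · filter_upwards [Pool.Agent.Q197.LK.exc_low F h0 h1 hε, Pool.Agent.Q197.LK.exc_up F h0 h1 hε] with x g1 g2
      exact ⟨g1, g2⟩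
  · have h1 := Pool.Agent.Q197.LK.fl_law hA hQ
    have h2 : ∀ N : ℕ, fails A N = Pool.Agent.Q197.LK.Fl A N := by
      intro N
      ext ω
      constructor
      · rintro ⟨p, g1, g2, g3⟩
        exact ⟨p, g1, g2, fun k k1 k2 k3 => g3 k ⟨k1, k2, k3⟩⟩
      · rintro ⟨p, g1, g2, g3⟩
        exact ⟨p, g1, g2, fun k hk => g3 k hk.1 hk.2.1 hk.2.2⟩
    refine h1.congr (fun N => ?_)
    rw [h2]
    rfl

end Pool.Agent.Results.MP_2f88e5_nt.LeastMultiplierLaw
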