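import Pool.Agent.Q117.LF.Nsf

/-!
MP_2f88e5_nt (primes of the form `2kp+1` with small `k`): the almost primes `m` for which some `2km+1`, `k ≤ K`, is almost prime: their multipliers `k` come in every
order, with every admissible vector of gaps up to the average gap, with an actual prime and a product of at most two primes at any two places.
-/

set_option autoImplicit false

namespace Pool.Agent.Results.MP_2f88e5_nt.MultipliersInEveryOrder

/-- all prime factors of `m` are `> z` (so `0` is not rough) -/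
def Rough (z : ℝ) (m : ℤ) : Prop := ∀ p : ℕ, p.Prime → (p : ℤ) ∣ m → z < p

/-- at most two prime factors (with multiplicity), all `> z` -/
def AtMostTwo (z : ℝ) (m : ℤ) : Prop := m.natAbs.primeFactorsList.length ≤ 2 ∧ Rough z m

/-- `m` and `2 k m + 1` are almost prime -/
def Mult (z : ℝ) (k : ℕ) (m : ℤ) : Prop := Rough z m ∧ Rough z (2 * k * m + 1)

/-- the value at the place `(j, s)`: `n + D j` for `s = false`, `2 k (n + D j) + 1` with `k = k j` for `s = true` -/
def val {J : ℕ} (k D : Fin (J + 1) → ℕ) (n : ℕ) (w : Fin (J + 1) × Bool) : ℕ := if w.2 then 2 * k w.1 * (n + D w.1) + 1 else n + D w.1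

/-- the number of the residues `n` modulo `p` for which `p` divides one of the values -/
noncomputable def omega {J : ℕ} (k D : Fin (J + 1) → ℕ) (p : ℕ) : ℕ := {n : ℕ | n < p ∧ ∃ w, p ∣ val k D n w}.ncard

/-- the `n ∈ (X, 2X]` such that the pairs `(m, κ)` with `|m - n| ≤ L`, `1 ≤ κ ≤ K` for which `m` and `2 κ m + 1` are almost prime are exactly the
`(n + D j, k j)`, the value at the place `w₁` is prime and the value at the place `w₂` has at most two prime factors, all `> X ^ (1/9)` -/
def Good {J : ℕ} (K : ℕ) (z X L : ℝ) (k D : Fin (J + 1) → ℕ) (w₁ w₂ : Fin (J + 1) × Bool) : Set ℕ :=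
  {n : ℕ | X < n ∧ (n : ℝ) ≤ 2 * X ∧ (∀ m : ℤ, |((m - n : ℤ) : ℝ)| ≤ L → ∀ κ : ℕ, 1 ≤ κ → κ ≤ K → (Mult z κ m ↔ ∃ j, m = n + D j ∧ κ = k j)) ∧
    (val k D n w₁).Prime ∧ AtMostTwo (X ^ (1 / 9 : ℝ)) (val k D n w₂)}

open Pool.Agent.Q117.LF in
theorem result : ∀ (J K : ℕ) (k : Fin (J + 1) → ℕ), (∀ j, 1 ≤ k j ∧ k j ≤ K) → ∀ w₁ w₂ : Fin (J + 1) × Bool, w₁ ≠ w₂ →
    ∃ t : ℕ, 1 ≤ t ∧ ∃ c : ℝ, 0 < c ∧ ∃ ν : ℝ, 0 < ν ∧ ∃ X0 : ℝ, ∀ X : ℝ, X0 ≤ X →
      ∀ D : Fin (J + 1) → ℕ, StrictMono D → (∀ j, (D j : ℝ) ≤ ν * Real.log X ^ 2) → (∀ p : ℕ, p.Prime → ∃ n : ℕ, ∀ w, ¬ p ∣ val k D n w) →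
        c * (X * ∏ p ∈ (Finset.Icc 1 ⌊X⌋₊).filter Nat.Prime, (1 - (omega k D p : ℝ) / p)) ≤
          ((Good K (X ^ (1 / (t : ℝ))) X (ν * Real.log X ^ 2) k D w₁ w₂).ncard : ℝ) := by
  classical
  intro J K k hk w₁ w₂ hw
  obtain ⟨t, ht, c, hc, ν, hν, X0, h⟩ := nsf (ι := Fin (J + 1) × Bool) (fun w => if w.2 then 2 * k w.1 else 1)
    (fun w => by
      have := (hk w.1).1
      split_ifs <;> omega)
    (Γ := Fin K) (fun _ => 2) (fun γ x => if x = 0 then 1 else 2 * ((γ : ℕ) + 1)) (fun γ x => if x = 0 then 0 else 1) 2 (fun _ => by norm_num) (fun _ => le_rfl)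
    (fun γ x => by
      split_ifs <;> omega)
    (fun γ x y hxy h => by
      have hx : x = 0 ∨ x = 1 := by omega
      have hy : y = 0 ∨ y = 1 := by omega
      rcases hx with rfl | rfl <;> rcases hy with rfl | rfl
      · exact hxy rfl
      · simp at h
      · simp at h
      · exact hxy rfl)
    (fun γ p hp => by
      refine ⟨(p - 1) * 0 + (if p = 2 then 1 else if (p ∣ 2 * ((γ : ℕ) + 1) + 1) then 2 else 1), fun x => ?_⟩
      have hx : x = 0 ∨ x = 1 := by omega
      have h2 := hp.two_le
      by_cases e2 : p = 2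
      · subst e2
        rcases hx with rfl | rfl
        · norm_num
        · simp only [if_true]
          intro hd
          push_cast at hd
          omega
      · have h3 : 3 ≤ p := by omega
        rw [if_neg e2]
        by_cases e3 : p ∣ 2 * ((γ : ℕ) + 1) + 1
        · rw [if_pos e3]
          rcases hx with rfl | rfl
          · simp only [if_true]
            intro hd
            have h4 : (p : ℤ) ∣ 2 := by simpa using hd
            have := Int.le_of_dvd (by norm_num) h4
            omega
          · simp only [if_neg (show (1 : Fin 2) ≠ 0 by decide)]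
            intro hd
            have h4 : (p : ℤ) ∣ ((2 * ((γ : ℕ) + 1) + 1 : ℕ) : ℤ) := by exact_mod_cast e3
            have h5 : (p : ℤ) ∣ 2 * ((2 * ((γ : ℕ) + 1) + 1 : ℕ) : ℤ) - (((2 * ((γ : ℕ) + 1) : ℕ) : ℤ) * (((p - 1) * 0 + 2 : ℕ) : ℤ) + 1) :=
              dvd_sub (Dvd.dvd.mul_left h4 2) hd
            have h6 : 2 * ((2 * ((γ : ℕ) + 1) + 1 : ℕ) : ℤ) - (((2 * ((γ : ℕ) + 1) : ℕ) : ℤ) * (((p - 1) * 0 + 2 : ℕ) : ℤ) + 1) = 1 := by
              push_cast; ring
            rw [h6] at h5
            have := Int.le_of_dvd (by norm_num) h5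
            omega
        · rw [if_neg e3]
          rcases hx with rfl | rfl
          · simp only [if_true]
            intro hd
            have h4 : (p : ℤ) ∣ 1 := by simpa using hd
            have := Int.le_of_dvd (by norm_num) h4
            omega
          · simp only [if_neg (show (1 : Fin 2) ≠ 0 by decide)]
            intro hd
            apply e3
            have h6 : (((2 * ((γ : ℕ) + 1) : ℕ) : ℤ) * (((p - 1) * 0 + 1 : ℕ) : ℤ) + 1) = ((2 * ((γ : ℕ) + 1) + 1 : ℕ) : ℤ) := by
              push_cast; ring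
            rw [h6] at hd
            exact_mod_cast hd)
    w₁ w₂ hw
  have hev : ∀ᶠ X : ℝ in Filter.atTop, 2 * ((K : ℝ) + 1) * (ν * Real.log X ^ 2 + 1) ≤ X / 2 := by
    have h4 : Filter.Tendsto (fun X : ℝ => (Real.log X) ^ 2 / (1 * X + 0)) Filter.atTop (nhds 0) :=
      Real.tendsto_pow_log_div_mul_add_atTop 1 0 2 one_ne_zero
    have h5 := (h4.const_mul (2 * ((K : ℝ) + 1) * ν)).eventually (gt_mem_nhds (show 2 * ((K : ℝ) + 1) * ν * 0 < 1 / 4 by norm_num))
    filter_upwards [h5, Filter.eventually_gt_atTop (8 * ((K : ℝ) + 1))] with X g1 g2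
    have hX0 : 0 < X := by
      have : (0 : ℝ) ≤ K := Nat.cast_nonneg _
      linarith
    rw [one_mul, add_zero, ← mul_div_assoc, div_lt_iff₀ hX0] at g1
    nlinarith
  obtain ⟨X1, hX1⟩ := Filter.eventually_atTop.1 hev
  refine ⟨t, ht, c, hc, ν, hν, max (max X0 X1) 4, fun X hX D hD hDν hadm => ?_⟩
  have hXa : X0 ≤ X := ((le_max_left _ _).trans (le_max_left _ _)).trans hX
  have hXb := hX1 X (((le_max_right _ _).trans (le_max_left _ _)).trans hX)
  have hX4 : 4 ≤ X := (le_max_right _ _).trans hX
  obtain ⟨be, hbe⟩ : ∃ be : Fin (J + 1) × Bool → ℤ, be = fun w => if w.2 then 2 * k w.1 * D w.1 + 1 else D w.1 := ⟨_, rfl⟩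
  have hval : ∀ (n : ℕ) (w : Fin (J + 1) × Bool), (((if w.2 then 2 * k w.1 else 1 : ℕ) : ℤ) * n + be w) = ((val k D n w : ℕ) : ℤ) := by
    intro n w
    rw [hbe]
    unfold val
    simp only
    split_ifs
    · push_cast; ring
    · push_cast; ring
  have hmain := h X hXa be
    (fun w => by
      rw [hbe]
      have h1 := hDν w.1
      have h2 : (k w.1 : ℝ) ≤ K := by exact_mod_cast (hk w.1).2
      have h3 : (0 : ℝ) ≤ D w.1 := Nat.cast_nonneg _
      have h4 : (0 : ℝ) ≤ k w.1 := Nat.cast_nonneg _
      simp only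
      split_ifs
      · push_cast
        rw [abs_of_nonneg (by positivity)]
        have h5 : 2 * (k w.1 : ℝ) * D w.1 ≤ 2 * (K : ℝ) * (ν * Real.log X ^ 2) := by gcongr
        nlinarith [sq_nonneg (Real.log X)]
      · push_cast
        rw [abs_of_nonneg h3]
        nlinarith [sq_nonneg (Real.log X), mul_nonneg hν.le (sq_nonneg (Real.log X)), Nat.cast_nonneg (α := ℝ) K])
    (by
      rintro ⟨i, a⟩ ⟨j, b⟩ hne heq
      rw [hbe] at heq
      have hki := (hk i).1
      have hkj := (hk j).1
      cases a <;> cases b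
      · simp only [Bool.false_eq_true, if_false] at heq
        apply hne
        have : D i = D j := by
          push_cast at heq
          omega
        rw [hD.injective this]
      · simp only [Bool.false_eq_true, if_false, if_true] at heq
        push_cast at heq
        have h1 : (2 : ℤ) * ((k j : ℤ) * D i - k j * D j) = 1 := by linarith
        omega
      · simp only [Bool.false_eq_true, if_false, if_true] at heq
        push_cast at heq
        have h1 : (2 : ℤ) * ((k i : ℤ) * D j - k i * D i) = 1 := by linarith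
        omega
      · simp only [if_true] at heq
        push_cast at heq
        have hij : i ≠ j := fun hij => hne (by rw [hij])
        have hD' : D i ≠ D j := fun e => hij (hD.injective e)
        have h1 : (2 : ℤ) * k i * k j * (D j - D i) = k j - k i := by linarith
        have h2 : (1 : ℤ) ≤ |(D j : ℤ) - D i| := Int.one_le_abs (by omega)
        have h3 : |(2 : ℤ) * k i * k j * (D j - D i)| = 2 * k i * k j * |(D j : ℤ) - D i| := by
          rw [abs_mul, abs_of_nonneg (by positivity)]
        have h4 : |(k j : ℤ) - k i| < k i + k j := by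
          rw [abs_lt]
          constructor <;> omega
        rw [← h1, h3] at h4
        have hki' : (1 : ℤ) ≤ k i := by exact_mod_cast hki
        have hkj' : (1 : ℤ) ≤ k j := by exact_mod_cast hkj
        nlinarith [mul_nonneg (show (0 : ℤ) ≤ 2 * k i * k j by positivity) (sub_nonneg.2 h2), mul_nonneg (sub_nonneg.2 hki') (sub_nonneg.2 hkj')])
    (fun p hp => by
      obtain ⟨n, hn⟩ := hadm p hp
      refine ⟨n, fun w hd => hn w ?_⟩
      rw [hval] at hd
      exact_mod_cast hd)
  have hom : ∀ p : ℕ, omI (fun w : Fin (J + 1) × Bool => if w.2 then 2 * k w.1 else 1) be p = omega k D p := by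
    intro p
    unfold omI omega
    rw [← Set.ncard_coe_finset]
    congr 1
    ext n
    simp only [Finset.coe_filter, Finset.mem_range, Set.mem_ofPred_eq]
    refine and_congr_right fun _ => exists_congr fun w => ?_
    rw [hval]
    exact Int.natCast_dvd_natCast
  simp only [hom] at hmain
  refine hmain.trans ?_
  have hfin : (Good K (X ^ (1 / (t : ℝ))) X (ν * Real.log X ^ 2) k D w₁ w₂).Finite := by
    apply Set.Finite.subset (Set.finite_Iic ⌊2 * X⌋₊)
    rintro n ⟨-, h2, -⟩
    exact Nat.le_floor h2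
  rw [Nat.cast_le]
  apply Set.ncard_le_ncard _ hfin
  rintro n ⟨g1, g2, g3, g4, g5, g6⟩
  simp only [hval] at g3 g4 g5
  refine ⟨g1, g2, fun m hm κ hκ1 hκ2 => ⟨fun hc => ?_, ?_⟩, ?_, g4⟩
  · obtain ⟨hc1, hc2⟩ := hc
    have hR : ∀ x : ℤ, Rough (X ^ (1 / (t : ℝ))) x → Ro (X ^ (1 / (t : ℝ))) x := fun x hx => hx
    have h01 : ∀ y : Fin 2, y = 0 ∨ y = 1 := by decide
    have g7 := g6 ⟨κ - 1, by omega⟩ m hm (fun x => by
      have hx : x = 0 ∨ x = 1 := h01 x
      apply hR
      rcases hx with rfl | rfl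
      · simpa using hc1
      · simp only [if_neg (show (1 : Fin 2) ≠ 0 by decide)]
        have e : (((2 * (κ - 1 + 1) : ℕ) : ℤ) * m + 1) = 2 * κ * m + 1 := by
          have : κ - 1 + 1 = κ := by omega
          rw [this]; push_cast; ring
        rw [e]; exact hc2)
    obtain ⟨⟨i, a⟩, h1, h2⟩ := g7 0
    obtain ⟨⟨j, b⟩, h3, h4⟩ := g7 1
    rw [hbe] at h2 h4
    simp only [if_true, if_neg (show (1 : Fin 2) ≠ 0 by decide)] at h1 h2 h3 h4
    have hki := (hk i).1
    have hkj := (hk j).1
    cases a
    · cases b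
      · simp only [Bool.false_eq_true, if_false] at h3
        omega
      · simp only [Bool.false_eq_true, if_false, if_true] at h1 h2 h3 h4
        have hkk : κ = k j := by omega
        have hmn : m - n = D i := by push_cast at h2; linarith
        have hmj : m = n + D j := by
          have e : ((2 * (κ - 1 + 1) : ℕ) : ℤ) = 2 * k j := by
            have : κ - 1 + 1 = k j := by omega
            rw [this]; push_cast; ring
          rw [e] at h4
          have h5 : (2 : ℤ) * k j * (m - n - D j) = 0 := by linarith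
          have h6 : (2 : ℤ) * k j ≠ 0 := by
            have : (1 : ℤ) ≤ k j := by exact_mod_cast hkj
            omega
          rcases mul_eq_zero.1 h5 with h7 | h7
          · exact absurd h7 h6
          · linarith
        exact ⟨j, hmj, hkk⟩
    · simp only [if_true] at h1
      omega
  · rintro ⟨j, rfl, rfl⟩
    have h1 := g5 (j, false)
    have h2 := g5 (j, true)
    constructor
    · have e : ((val k D n (j, false) : ℕ) : ℤ) = (n : ℤ) + D j := by simp [val]
      rw [e] at h1; exact h1
    · have e : ((val k D n (j, true) : ℕ) : ℤ) = 2 * k j * ((n : ℤ) + D j) + 1 := by simp [val]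
      rw [e] at h2; exact h2
  · simpa using g3

end Pool.Agent.Results.MP_2f88e5_nt.MultipliersInEveryOrder
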