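import Pool.Agent.Q117.LF.Cnt

/-!
MP_2f88e5_nt (primes `2 k p + 1` with small `k`): the set of ALL multipliers `κ` up to the scale of Rankin for which `2 κ p + 1` has no small prime
factor can be prescribed exactly, with `p` prime and one of the numbers `2 κ p + 1` a prime or a product of two large primes.
-/

set_option autoImplicit false

namespace Pool.Agent.Results.MP_2f88e5_nt.PrescribedMultipliers

/-- the scale of Rankin -/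
noncomputable def R (X : ℝ) : ℝ :=
  Real.log X * Real.log (Real.log X) * Real.log (Real.log (Real.log (Real.log X))) / (Real.log (Real.log (Real.log X))) ^ 2

/-- all prime factors of `m` are `> z` -/
def Rough (z : ℝ) (m : ℤ) : Prop := ∀ p : ℕ, p.Prime → (p : ℤ) ∣ m → z < p

/-- at most two prime factors (with multiplicity), all `> z` -/
def AtMostTwo (z : ℝ) (m : ℤ) : Prop := m.natAbs.primeFactorsList.length ≤ 2 ∧ Rough z m

/-- no prime divides `n` or one of the `2 κ n + 1`, `κ ∈ S`, for every `n` -/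
def NoFixedDivisor (S : Finset ℕ) : Prop := ∀ p : ℕ, p.Prime → ∃ n : ℕ, ¬ p ∣ n ∧ ∀ κ ∈ S, ¬ p ∣ 2 * κ * n + 1

/-- among all the `2 κ p + 1`, `1 ≤ κ ≤ D`, exactly those with `κ ∈ S` have no small prime factor -/
def Multipliers (t : ℕ) (X D : ℝ) (S : Finset ℕ) (p : ℕ) : Prop :=
  (∀ κ ∈ S, Rough (X ^ (1 / (t : ℝ))) (2 * (κ : ℤ) * p + 1)) ∧
    ∀ κ : ℕ, 1 ≤ κ → (κ : ℝ) ≤ D → κ ∉ S → ¬ Rough (Real.log X) (2 * (κ : ℤ) * p + 1)

theorem result : ∀ k K : ℕ, ∃ t : ℕ, 1 ≤ t ∧ ∃ c : ℝ, 0 < c ∧ ∃ X0 : ℝ, ∀ X : ℝ, X0 ≤ X → ∀ S : Finset ℕ,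
    S.card ≤ k → 0 ∉ S → (∀ κ ∈ S, (κ : ℝ) ≤ c * R X) → NoFixedDivisor S → ∀ κ₀ ∈ S, κ₀ ≤ K →
    X ^ (99 / 100 : ℝ) ≤ ({p : ℕ | X < p ∧ (p : ℝ) ≤ 2 * X ∧ p.Prime ∧ AtMostTwo (X ^ (1 / 8 : ℝ)) (2 * κ₀ * p + 1) ∧
      Multipliers t X (c * R X) S p}.ncard : ℝ) := by
  intro k K
  obtain ⟨t, ht, c, hc, X0, h⟩ := Pool.Agent.Q117.LF.t3 Pool.Agent.Q117.LF.mulC k K
  refine ⟨t, ht, c, hc, max X0 0, fun X hX S h1 h2 h3 h4 κ₀ h5 h6 => ?_⟩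
  have hX0 : (0 : ℝ) ≤ X := (le_max_right _ _).trans hX
  exact Pool.Agent.Q117.LF.cnt hX0 _ _ (h X ((le_max_left _ _).trans hX) S h1 h2 h3 h4 κ₀ h5 h6)

end Pool.Agent.Results.MP_2f88e5_nt.PrescribedMultipliers
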