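import Pool.Agent.Q253.P3.ThinL
import Pool.Agent.Q253.P3.APL

/-!
# The numbers `2 k p + 1` with `k < p`

(1) There is ONE set `Q` of primes with `O(log ^ 2 x)` elements up to `x` such that for EVERY large prime `p` there is `k < p` such that
`2 k p + 1` is a prime, or a number `q m` with `q ∈ Q` and `m` a prime or a product of two primes; more generally every reduced
residue class to every large modulus `m` contains such a number up to `m ^ 2`. (2) For every large prime `p` there are arithmetic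
progressions of any given length of multipliers `k < p`, with difference at most a power of `log p`, such that all the numbers
`2 k p + 1` are primes, or all are products of two primes, or all are products of three primes.

Libraries (starting files): the weighted linear sieve `Y882.KW`, `W378.DC.MP`, Szemerédi's theorem relative to sifted sets `Y843.HS.fin`.
-/

set_option autoImplicit false

namespace Pool.Agent.Results.MP_2f88e5_nt.SmallMultipliers

open Finset Filter
open Pool.Agent.Q253.P3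

/-- a prime, or an element of `Q` times a prime or a product of two primes -/
def PrimeOr (Q : Set ℕ) (n : ℕ) : Prop :=
  n.Prime ∨ ∃ q ∈ Q, ∃ m : ℕ, n = q * m ∧ (m.Prime ∨ ∃ a b : ℕ, a.Prime ∧ b.Prime ∧ m = a * b)

lemma small {m : ℕ} (h2 : 2 ≤ m) (h : m.primeFactorsList.length ≤ 2) :
    m.Prime ∨ ∃ a b : ℕ, a.Prime ∧ b.Prime ∧ m = a * b := by
  have hprod := Nat.prod_primeFactorsList (show m ≠ 0 by omega)
  rcases hl : m.primeFactorsList with _ | ⟨a, _ | ⟨b, _ | ⟨c, l⟩⟩⟩
  · rw [hl] at hprod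
    simp at hprod
    omega
  · left
    have ha : a.Prime := Nat.prime_of_mem_primeFactorsList (n := m) (by rw [hl]; simp)
    rw [hl] at hprod
    simp at hprod
    rwa [← hprod]
  · right
    have ha : a.Prime := Nat.prime_of_mem_primeFactorsList (n := m) (by rw [hl]; simp)
    have hb : b.Prime := Nat.prime_of_mem_primeFactorsList (n := m) (by rw [hl]; simp)
    rw [hl] at hprod
    refine ⟨a, b, ha, hb, ?_⟩
    simp at hprod
    exact hprod.symm
  · rw [hl] at h
    simp at h

lemma sqb (p : ℕ) (h : 3 ≤ p) : p ^ 2 ≤ 2 * p * (0 + (p - 1)) + 1 ∧ 2 * p * (0 + (p - 1)) + 1 ≤ 2 * p ^ 2 := by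
  obtain ⟨u, rfl⟩ : ∃ u, p = u + 1 := ⟨p - 1, by omega⟩
  rw [Nat.add_sub_cancel]
  constructor <;> nlinarith

/-- **Primes of the form `2 k p + 1` with small `k`.** (1) There are `C > 0` and a set `Q` of primes with at most `C log ^ 2 x` elements
up to `x`, for all `x ≥ 2`, such that for EVERY large prime `p` there is `1 ≤ k < p` such that `2 k p + 1` has no prime factor
below `p ^ (39/200)` and is a prime or a product `q m`, `q ∈ Q`, `m` a prime or a product of two primes; and for EVERY large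
modulus `m` and every `1 ≤ a ≤ m` coprime to `m` there is such a number `n ≡ a` modulo `m` with `a < n ≤ m ^ 2`. (2) For all `L` and
`r` there is `D` such that for every large prime `p` and every colouring of the integers with `r` colours there is an arithmetic
progression of `L` multipliers `1 ≤ k < p` with a difference `≤ log ^ D p` such that the numbers `2 k p + 1` have the same number
`s ∈ {1, 2, 3}` of prime factors, all `≥ p ^ (39/200)`, and the multipliers have the same colour. -/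
theorem result :
    (∃ C : ℝ, 0 < C ∧ ∃ Q : Set ℕ, (∀ q ∈ Q, q.Prime) ∧
      (∀ x : ℕ, 2 ≤ x → {q ∈ Q | q ≤ x}.Finite ∧ ({q ∈ Q | q ≤ x}.ncard : ℝ) ≤ C * Real.log x ^ 2) ∧
      ∃ x₀ : ℕ, (∀ p : ℕ, x₀ ≤ p → p.Prime → ∃ k : ℕ, 1 ≤ k ∧ k < p ∧ PrimeOr Q (2 * k * p + 1) ∧
          ∀ l : ℕ, l.Prime → l ∣ 2 * k * p + 1 → (p : ℝ) ^ (39 / 200 : ℝ) ≤ l) ∧
        (∀ m a : ℕ, x₀ ≤ m → 1 ≤ a → a ≤ m → Nat.Coprime a m →
          ∃ n : ℕ, a < n ∧ n ≤ m ^ 2 ∧ n ≡ a [MOD m] ∧ PrimeOr Q n)) ∧
    (∀ L r : ℕ, 1 ≤ r → ∃ D x₀ : ℕ, ∀ p : ℕ, x₀ ≤ p → p.Prime → ∀ col : ℕ → Fin r,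
      ∃ s : ℕ, (s = 1 ∨ s = 2 ∨ s = 3) ∧ ∃ b : Fin r, ∃ a d : ℕ, 1 ≤ d ∧ (d : ℝ) ≤ Real.log p ^ D ∧ ∀ j < L,
        1 ≤ a + j * d ∧ a + j * d < p ∧ col (a + j * d) = b ∧ (2 * (a + j * d) * p + 1).primeFactorsList.length = s ∧
        ∀ l : ℕ, l.Prime → l ∣ 2 * (a + j * d) * p + 1 → (p : ℝ) ^ (39 / 200 : ℝ) ≤ l) := by
  classical
  have hpow : ∀ p X : ℕ, 1 ≤ p → p ^ 2 ≤ X → (p : ℝ) ^ (39 / 200 : ℝ) ≤ (X : ℝ) ^ (39 / 400 : ℝ) := by
    intro p X hp h
    have hp0 : (0 : ℝ) < p := by exact_mod_cast hp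
    have h1 : (p : ℝ) ^ 2 ≤ X := by exact_mod_cast h
    calc (p : ℝ) ^ (39 / 200 : ℝ) = ((p : ℝ) ^ 2) ^ (39 / 400 : ℝ) := by
          rw [← Real.rpow_natCast, ← Real.rpow_mul hp0.le]
          norm_num
      _ ≤ _ := Real.rpow_le_rpow (by positivity) h1 (by norm_num)
  constructor
  · obtain ⟨C, hC, Q, hQ, hQc, X₀, h⟩ := thinL
    refine ⟨C, hC, Q, hQ, ?_, max X₀ 3, ?_, ?_⟩
    · intro x hx
      obtain ⟨S, hS1, hS2⟩ := hQc x hx
      have hsub : {q ∈ Q | q ≤ x} ⊆ (S : Set ℕ) := fun q hq => hS1 q hq.1 hq.2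
      refine ⟨S.finite_toSet.subset hsub, ?_⟩
      refine le_trans ?_ hS2
      have := Set.ncard_le_ncard hsub S.finite_toSet
      rw [Set.ncard_coe_finset] at this
      exact_mod_cast this
    · intro p hp hpp
      have hp1 : X₀ ≤ p := (le_max_left _ _).trans hp
      have hp3 : 3 ≤ p := (le_max_right _ _).trans hp
      have hX2 : p ^ 2 ≤ 2 * p * (p - 1) + 1 := by
        obtain ⟨u, rfl⟩ : ∃ u, p = u + 1 := ⟨p - 1, by omega⟩
        rw [Nat.add_sub_cancel]
        nlinarith
      obtain ⟨j, hj, hcase⟩ := h (2 * p) 1 (p - 1) (by nlinarith) (by omega) (Nat.coprime_one_left _) (by omega) le_rfl (by omega)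
      unfold G3L at hj
      rw [mem_filter, mem_Ioc] at hj
      obtain ⟨⟨a1, a2⟩, a3, a4⟩ := hj
      have e : 2 * j * p + 1 = 2 * p * j + 1 := by ring
      refine ⟨j, a1, by omega, ?_, ?_⟩
      · rw [e]
        rcases hcase with hpr | ⟨q, hq, m, hm, hqm, hml⟩
        · exact Or.inl hpr
        · exact Or.inr ⟨q, hq, m, hm, small ((hQ q hq).two_le.trans hqm) hml⟩
      · rw [e]
        intro l hl hld
        exact (hpow p _ (by omega) hX2).trans (a4 l hl hld)
    · intro m a hm ha1 ha2 ham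
      have hm1 : X₀ ≤ m := (le_max_left _ _).trans hm
      have hm3 : 3 ≤ m := (le_max_right _ _).trans hm
      obtain ⟨j, hj, hcase⟩ := h m a (m - 1) (by
        have : m ≤ m * (m - 1) := Nat.le_mul_of_pos_right m (by omega)
        omega) (by omega) ham (by omega) ha1 ha2
      unfold G3L at hj
      rw [mem_filter, mem_Ioc] at hj
      obtain ⟨⟨a3, a4⟩, -, -⟩ := hj
      refine ⟨m * j + a, ?_, ?_, ?_, ?_⟩
      · have : 0 < m * j := Nat.mul_pos (by omega) a3
        omega
      · have h1 : m * j ≤ m * (m - 1) := Nat.mul_le_mul_left m (by omega)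
        have h2 : m * (m - 1) + m = m ^ 2 := by
          obtain ⟨u, rfl⟩ : ∃ u, m = u + 1 := ⟨m - 1, by omega⟩
          rw [Nat.add_sub_cancel]
          ring
        omega
      · exact (Nat.modEq_zero_iff_dvd.2 (Dvd.intro j rfl)).add_right a |>.trans (by rw [Nat.zero_add])
      · rcases hcase with hpr | ⟨q, hq, l, hl, hql, hll⟩
        · exact Or.inl hpr
        · exact Or.inr ⟨q, hq, l, hl, small ((hQ q hq).two_le.trans hql) hll⟩
  · intro L r hr
    have hr0 : (0 : ℝ) < r := by exact_mod_cast hr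
    obtain ⟨δ, hδ, X₁, h1⟩ := p3lin
    obtain ⟨D, X₂, h2⟩ := p3_apl L (δ / (3 * r)) (by positivity)
    have ev : ∀ᶠ n : ℕ in atTop, (3 : ℝ) ≤ Real.log n :=
      (Real.tendsto_log_atTop.comp tendsto_natCast_atTop_atTop).eventually_ge_atTop _
    obtain ⟨N₁, hN₁⟩ := eventually_atTop.1 ev
    refine ⟨2 * D, max (max X₁ X₂) (max N₁ 200), ?_⟩
    intro p hp hpp col
    have n1 : X₁ ≤ p := ((le_max_left _ _).trans (le_max_left _ _)).trans hp
    have n2 : X₂ ≤ p := ((le_max_right _ _).trans (le_max_left _ _)).trans hp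
    have n3 : N₁ ≤ p := ((le_max_left _ _).trans (le_max_right _ _)).trans hp
    have n4 : 200 ≤ p := ((le_max_right _ _).trans (le_max_right _ _)).trans hp
    have hlog3 := hN₁ p n3
    have hpr : (200 : ℝ) ≤ p := by exact_mod_cast n4
    have hp0 : (0 : ℝ) < p := by linarith
    obtain ⟨H, hH⟩ : ∃ H, H = p - 1 := ⟨_, rfl⟩
    obtain ⟨X, hX⟩ : ∃ X, X = 2 * p * (0 + H) + 1 := ⟨_, rfl⟩
    have hXp : p ^ 2 ≤ X := by
      rw [hX, hH]
      exact (sqb p (le_trans (by norm_num) n4)).1
    have hX2p : X ≤ 2 * p ^ 2 := by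
      rw [hX, hH]
      exact (sqb p (le_trans (by norm_num) n4)).2
    have hXr : (p : ℝ) ^ 2 ≤ X := by exact_mod_cast hXp
    have hX2r : (X : ℝ) ≤ 2 * (p : ℝ) ^ 2 := by exact_mod_cast hX2p
    have hX0 : (0 : ℝ) < X := by nlinarith
    have hX1 : p ≤ X := by nlinarith
    have hHr : (p : ℝ) / 2 ≤ H := by
      have h3 : p ≤ 2 * H := by omega
      have h4 : (p : ℝ) ≤ 2 * H := by exact_mod_cast h3
      linarith
    have hHX : (X : ℝ) ^ (2 / 5 : ℝ) ≤ H := by
      refine le_trans ?_ hHr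
      have h3 : (X : ℝ) ≤ ((p : ℝ) / 2) ^ (5 / 2 : ℝ) := by
        refine hX2r.trans ?_
        have h4 : ((p : ℝ) / 2) ^ (5 / 2 : ℝ) = ((p : ℝ) / 2) ^ (1 / 2 : ℝ) * ((p : ℝ) / 2) ^ 2 := by
          rw [← Real.rpow_natCast, ← Real.rpow_add (by positivity)]
          norm_num
        rw [h4]
        have h5 : (8 : ℝ) ≤ ((p : ℝ) / 2) ^ (1 / 2 : ℝ) := by
          rw [← Real.sqrt_eq_rpow]
          apply Real.le_sqrt_of_sq_le
          linarith
        calc 2 * (p : ℝ) ^ 2 = 8 * ((p : ℝ) / 2) ^ 2 := by ring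
          _ ≤ _ := mul_le_mul_of_nonneg_right h5 (by positivity)
      calc (X : ℝ) ^ (2 / 5 : ℝ) ≤ (((p : ℝ) / 2) ^ (5 / 2 : ℝ)) ^ (2 / 5 : ℝ) :=
            Real.rpow_le_rpow hX0.le h3 (by norm_num)
        _ = (p : ℝ) / 2 := by
            rw [← Real.rpow_mul (by positivity)]
            norm_num
    have hG := h1 X (by omega) (2 * p) 1 0 H (by omega) (Nat.coprime_one_left _) (by rw [← hX]) hHX
    have hmem : ∀ m ∈ G3L X (39 / 400) (2 * p) 1 0 H, (0 < m ∧ m ≤ 0 + H) ∧ (2 * p * m + 1).primeFactorsList.length ≤ 3 ∧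
        ∀ q : ℕ, q.Prime → q ∣ 2 * p * m + 1 → (X : ℝ) ^ (39 / 400 : ℝ) ≤ q := by
      intro m hm
      unfold G3L at hm
      rw [mem_filter, mem_Ioc] at hm
      exact hm
    -- the classes
    set K : Finset (ℕ × Fin r) := ({1, 2, 3} : Finset ℕ) ×ˢ univ with hK
    have hKc : K.card = 3 * r := by
      rw [hK, card_product, card_univ, Fintype.card_fin]
      rfl
    have hcov : G3L X (39 / 400) (2 * p) 1 0 H ⊆ K.biUnion (fun c => (G3L X (39 / 400) (2 * p) 1 0 H).filter
        (fun m => (2 * p * m + 1).primeFactorsList.length = c.1 ∧ col m = c.2)) := by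
      intro m hm
      rw [mem_biUnion]
      refine ⟨((2 * p * m + 1).primeFactorsList.length, col m), ?_, ?_⟩
      · rw [hK, mem_product]
        refine ⟨?_, mem_univ _⟩
        obtain ⟨a1, a2, _⟩ := hmem m hm
        have h3 : (2 * p * m + 1).primeFactorsList.length ≠ 0 := by
          intro h
          have h4 := List.length_eq_zero_iff.1 h
          rw [Nat.primeFactorsList_eq_nil] at h4
          have : 0 < 2 * p * m := Nat.mul_pos (by omega) a1.1
          omega
        simp only [mem_insert, mem_singleton]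
        omega
      · rw [mem_filter]
        exact ⟨hm, rfl, rfl⟩
    obtain ⟨c, hc, hcc⟩ : ∃ c ∈ K, δ / (3 * r) * (H / Real.log X) ≤
        (((G3L X (39 / 400) (2 * p) 1 0 H).filter (fun m => (2 * p * m + 1).primeFactorsList.length = c.1 ∧ col m = c.2)).card : ℝ) := by
      by_contra hcon
      push Not at hcon
      have h3 : ((G3L X (39 / 400) (2 * p) 1 0 H).card : ℝ) ≤ ∑ c ∈ K,
          ((((G3L X (39 / 400) (2 * p) 1 0 H).filter (fun m => (2 * p * m + 1).primeFactorsList.length = c.1 ∧ col m = c.2)).card : ℕ) : ℝ) := by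
        exact_mod_cast (card_le_card hcov).trans card_biUnion_le
      have hKne : K.Nonempty := by
        rw [← card_pos, hKc]
        omega
      have h4 := sum_lt_sum_of_nonempty hKne hcon
      rw [sum_const, hKc, nsmul_eq_mul] at h4
      have h5 : ((3 * r : ℕ) : ℝ) * (δ / (3 * r) * (H / Real.log X)) = δ * (H / Real.log X) := by
        push_cast
        field_simp
      rw [h5] at h4
      linarith
    obtain ⟨a, d, hd1, hd2, hd3⟩ := h2 X (by omega) p 0 H hpp (by rw [← hX]) hHX _ (filter_subset _ _) hcc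
    refine ⟨c.1, ?_, c.2, a, d, hd1, ?_, ?_⟩
    · have := (mem_product.1 hc).1
      simpa only [mem_insert, mem_singleton] using this
    · refine hd2.trans ?_
      have h3 : Real.log X ≤ 3 * Real.log p := by
        have h5 : (X : ℝ) ≤ (p : ℝ) ^ 3 := by
          refine hX2r.trans ?_
          nlinarith [pow_pos hp0 2]
        have := Real.log_le_log hX0 h5
        rwa [Real.log_pow, Nat.cast_ofNat] at this
      have hlX : 0 ≤ Real.log X := Real.log_nonneg (by nlinarith)
      calc Real.log X ^ D ≤ (Real.log p ^ 2) ^ D := by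
            apply pow_le_pow_left₀ hlX
            nlinarith
        _ = _ := by rw [← pow_mul]
    · intro j hj
      have h3 := hd3 j hj
      rw [mem_filter] at h3
      obtain ⟨h4, h5, h6⟩ := h3
      obtain ⟨⟨b1, b2⟩, _, b3⟩ := hmem _ h4
      have e : 2 * (a + j * d) * p + 1 = 2 * p * (a + j * d) + 1 := by ring
      rw [e]
      refine ⟨b1, by omega, h6, h5, ?_⟩
      intro l hl hld
      exact (hpow p X (by omega) hXp).trans (b3 l hl hld)

end Pool.Agent.Results.MP_2f88e5_nt.SmallMultipliers
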